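import Pool.Agent.Lib.MP_f1d828_lc.Certs
import Pool.Agent.Lib.MP_f1d828_lc.Limit

set_option autoImplicit false

open Pool.Agent.F1D Filter
open scoped ENNReal

namespace Pool.Agent.Results.MP_f1d828_lc.RhoTwo

/-- Every on-line 2-bounded-space bin packing algorithm has asymptotic expected ratio at least
`1.1764` on `U(0,1)`, some algorithm has ratio at most `1.1788`, so `1.1764 ≤ ρ_2 ≤ 1.1788`. -/
theorem result :
    (∀ A : OnlineAlg 2, ENNReal.ofReal 1.1764 ≤ A.ratio) ∧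
    (∃ A : OnlineAlg 2, A.ratio ≤ ENNReal.ofReal 1.1788) ∧
    ENNReal.ofReal 1.1764 ≤ rho 2 ∧ rho 2 ≤ ENNReal.ofReal 1.1788 := by
  have h1 : ∀ A : OnlineAlg 2, ENNReal.ofReal 1.1764 ≤ A.ratio := fun A =>
    ratio_lower (by norm_num) (by norm_num) certL512 (by norm_num) (by norm_num) A
  have h2 := ratio_upper (r := 1.1788) (by norm_num) (by norm_num) certU512 (by norm_num)
    (by norm_num)
  exact ⟨h1, ⟨_, h2⟩, le_iInf h1, (iInf_le _ _).trans h2⟩

end Pool.Agent.Results.MP_f1d828_lc.RhoTwo
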